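import Pool.Agent.Run7.h23.Ff.Top
import Pool.Agent.N874.TW.Abs
import Pool.Agent.N874.JM.Fld

/-!
# The 2-Selmer group of the twists over the extension

After project TW (helper874).
-/

set_option autoImplicit false
set_option linter.all false

open Polynomial IsDedekindDomain
open Pool.Agent.N352.PJ
open Pool.Agent.N874.JM (S_RAM LocF SelF Parts)
open Pool.Agent.N874.PP (nm Ov Ev Sq1 U0 S_CLS S_LIN cl cl_add_aux exists_below below_unique)
open Pool.Agent.N874.PM (ov_val val_le val_eq_of ov_down ev_down sq_down ev_sq ev_mul S_SIG Gen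
  SplitMod S_UR S_SPD S_LIE poly_approx val_two ov_prod)
open scoped Classical IntermediateField

namespace Run7.h23.Ff

open Pool.Agent.N874.TW

section abs

variable {k K L M Ω : Type} (O O' R : Type) [Field k] [Finite k] [Field K] [Field L] [Field M]
  [Field Ω]
  [Algebra k[X] K] [IsFractionRing k[X] K]
  [Algebra K L] [Algebra k[X] L] [IsScalarTower k[X] K L]
  [Algebra K M] [Algebra k[X] M] [IsScalarTower k[X] K M]
  [Algebra L Ω] [Algebra M Ω] [Algebra K Ω] [IsScalarTower K L Ω] [IsScalarTower K M Ω]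
  [Algebra k[X] Ω] [IsScalarTower k[X] L Ω] [IsScalarTower k[X] M Ω]
  [CommRing O] [IsDedekindDomain O] [Algebra O L] [IsFractionRing O L] [Algebra k[X] O]
  [IsScalarTower k[X] O L] [IsIntegralClosure O k[X] L] [Module.Finite k[X] O]
  [CommRing O'] [IsDedekindDomain O'] [Algebra O' Ω] [IsFractionRing O' Ω] [Algebra k[X] O']
  [IsScalarTower k[X] O' Ω] [IsIntegralClosure O' k[X] Ω] [Module.Finite k[X] O']
  [CommRing R] [IsDedekindDomain R] [Algebra R M] [IsFractionRing R M] [Algebra k[X] R]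
  [IsScalarTower k[X] R M] [IsIntegralClosure R k[X] M] [Module.Finite k[X] R] [IsGalois K M]
  [FiniteDimensional M Ω] [Algebra.IsSeparable M Ω] [FiniteDimensional L Ω]
  [Algebra.IsSeparable L Ω]

include O O' in
theorem selF_absD (H : Parts) {g : ℕ} {f : k[X][X]} {θ : L} {N : ℕ} {r : k[X]} {S J : Finset k[X]}
    {s : k[X] → k[X][X]} (h2 : (2 : k) ≠ 0) (hg : 1 ≤ g) (hc : IsGen g K f θ)
    (hS : GoodS g S s) (hF : Fam g N r S s f) (hJ : J ⊆ S) {D : k[X]}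
    (hD0 : D ≠ 0) (hDS : ∀ Q ∈ S, ¬ Q ∣ D)
    (hDP : ∀ P : k[X], P.Monic → Irreducible P → P ∣ D →
      Irreducible (f.map (Ideal.Quotient.mk (Ideal.span {P}))))
    (hsel : ∀ α : L, α ≠ 0 → IsSquare (Algebra.norm K α) →
      (∀ 𝔓 : HeightOneSpectrum O, (∀ Q ∈ J, ¬ Ov Q 𝔓) → Ev 𝔓 α) →
      (∀ Q ∈ J, ∀ 𝔓 : HeightOneSpectrum O, Ov Q 𝔓 → 𝔓.valuation L θ = 1 →
        U0 𝔓 (algebraMap k[X] L Q * θ) α) → IsSquare α)
    (hθ : M⟮algebraMap L Ω θ⟯ = ⊤)
    (hQs : ∀ Q ∈ S, ∀ w : HeightOneSpectrum R, Ov Q w →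
      w.valuation M (algebraMap k[X] M Q) = WithZero.exp (-1 : ℤ) ∧
      Function.Surjective ((Ideal.Quotient.mk w.asIdeal).comp (algebraMap k[X] R)))
    (hPr : ∀ P : k[X], P.Monic → Irreducible P → (∃ w : HeightOneSpectrum R, Ov P w ∧
      w.valuation M (algebraMap k[X] M P) ≠ WithZero.exp (-1 : ℤ)) →
      Irreducible (f.map (Ideal.Quotient.mk (Ideal.span {P}))))
    {n : ℕ} (hM : Module.finrank K M = 2 ^ n) (hΩ : Module.finrank M Ω = 2 * g + 1) :
    ∀ h : M[X], aeval (algebraMap k[X] Ω (D * ∏ Q ∈ J, Q) * algebraMap L Ω θ) h ≠ 0 →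
      IsSquare (Algebra.norm M (aeval (algebraMap k[X] Ω (D * ∏ Q ∈ J, Q) * algebraMap L Ω θ) h)) →
      (∀ w : HeightOneSpectrum R, LocF (w.adicCompletion M)
        ((f.scaleRoots (D * ∏ Q ∈ J, Q)).map (algebraMap k[X] M)) h) →
      IsSquare (aeval (algebraMap k[X] Ω (D * ∏ Q ∈ J, Q) * algebraMap L Ω θ) h) := by
  haveI : Algebra.IsIntegral k[X] R := IsIntegralClosure.isIntegral_algebra k[X] M
  haveI : Algebra.IsIntegral k[X] O' := IsIntegralClosure.isIntegral_algebra k[X] Ω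
  haveI : Algebra.IsIntegral k[X] O := IsIntegralClosure.isIntegral_algebra k[X] L
  have h2K : (2 : K) ≠ 0 := by
    have e : algebraMap k[X] K (C (2 : k)) = 2 := by
      rw [show (C (2 : k) : k[X]) = 2 from rfl, map_ofNat]
    rw [← e, Ne, IsFractionRing.to_map_eq_zero_iff, C_eq_zero]
    exact h2
  have hS' : ∀ Q ∈ S, Q.Monic ∧ Irreducible Q := fun Q hQ => ⟨(hS Q hQ).1, (hS Q hQ).2.1⟩
  -- the ramified primes and the prime divisors of `D`
  let T : Set k[X] := {P | P.Monic ∧ Irreducible P ∧ ((∃ w : HeightOneSpectrum R, Ov P w ∧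
      w.valuation M (algebraMap k[X] M P) ≠ WithZero.exp (-1 : ℤ)) ∨ P ∣ D)}
  intro h hne hN hloc
  have hcnd := cnd_topD (T := T) O O' R H.ram H.csq H.lie H.loc1 H.loc2 h2 hg hc hS hF hθ hQs hJ
    hD0 (fun P p1 p2 p3 => ⟨p1, p2, Or.inr p3⟩) hDS hloc hne
  refine H.tow n K L M Ω h2K hM (by rw [hc.rank]; exact odd_two_mul_add_one g)
    (by rw [hΩ, hc.rank])
    (fun x => Cnd O' J T (algebraMap L Ω θ)
      (algebraMap L Ω (eval₂ (algebraMap k[X] L) θ (derivative f))) x) (fun x hx => cnd_sq hx)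
    (fun x y hx hy h h' => cnd_mul H.cls h2 (fun Q hQ => (hS Q (hJ hQ)).2.1)
      (fun Q hQ 𝔓 h1 h3 => ?_) hx hy h h')
    (fun σ x h => cnd_sig H.sig rfl rfl σ h)
    (fun x hx hC hN => ?_) _ hne hcnd hN
  · have h4 := (q_top (K := K) O O' R H.ram H.csq H.lie hg hc hF.sq hS hθ (hJ hQ)
      (hF.con Q (hJ hQ)) (fun w hw => (hQs Q (hJ hQ) w hw).1) 𝔓 h1 h3).1
    apply not_ev_exp
    rw [map_mul, h4, h3, mul_one]
  · refine base_sq O O' (fun Q hQ => hS' Q (hJ hQ)) (fun P hP => ⟨hP.1, hP.2.1⟩) hsel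
      (fun 𝔮 => ?_) (fun 𝔓 h1 h3 => ?_) (fun Q hQ 𝔓 h1 h3 => ?_)
      (fun P hP => H.p3 g k K L O f θ hc hF.sq P hP.2.1
        (hP.2.2.elim (hPr P hP.1 hP.2.1) (hDP P hP.1 hP.2.1)))
      (H.ram g k K L O f θ hc hF.sq)
      (H.par g k K L O f θ hc hF.sq) hx hC hN
    · refine Pool.Agent.N704.PP.val_int (k := k) 𝔮 ?_
      rw [eval₂_eq_sum_range]
      exact IsIntegral.sum _ fun i _ => isIntegral_algebraMap.mul
        ((Pool.Agent.N769.PJ.theta_int hc).pow _)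
    · obtain ⟨P, hPm, hPi, hP𝔓⟩ := exists_below (k := k) 𝔓
      have hPT : P ∉ T := fun hP => h1 P hP hP𝔓
      obtain ⟨𝔓', h4, -⟩ := up_prime (K := K) (M := M) (Ω := Ω) O O' R hc hθ hPm hPi
        (fun w hw => by
          by_contra hne
          exact hPT ⟨hPm, hPi, Or.inl ⟨w, hw, hne⟩⟩) 𝔓 hP𝔓 h3
      exact ⟨𝔓', h4⟩
    · have hQS := hJ hQ
      obtain ⟨𝔓', h4, w, hw, hwQ⟩ := up_prime (K := K) (M := M) (Ω := Ω) O O' R hc hθ
        (hS Q hQS).1 (hS Q hQS).2.1 (fun w hw => (hQs Q hQS w hw).1) 𝔓 h1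
        (eta_unit O H.ram hg hc hF.sq hS hQS (hF.con Q hQS) 𝔓 h1 h3)
      exact ⟨𝔓', h4, dens3 (K := K) O' R hθ 𝔓' w hw (by rw [h4, h3])
        (dens1 R w (hQs Q hQS w hwQ).1 (hQs Q hQS w hwQ).2)⟩

end abs

section mid

variable {k K L M Ω : Type} (O : Type) [Field k] [Finite k] [Field K] [Field L] [Field M]
  [Field Ω]
  [Algebra k[X] K] [IsFractionRing k[X] K]
  [Algebra K L] [Algebra k[X] L] [IsScalarTower k[X] K L]
  [Algebra K M] [Algebra k[X] M] [IsScalarTower k[X] K M]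
  [Algebra L Ω] [Algebra M Ω] [Algebra K Ω] [IsScalarTower K L Ω] [IsScalarTower K M Ω]
  [Algebra k[X] Ω] [IsScalarTower k[X] L Ω] [IsScalarTower k[X] M Ω]
  [FiniteDimensional K L] [Algebra.IsSeparable K L] [FiniteDimensional K M] [IsGalois K M]
  [FiniteDimensional K Ω] [Algebra.IsSeparable K Ω] (R : Type)
  [CommRing O] [IsDedekindDomain O] [Algebra O L] [IsFractionRing O L] [Algebra k[X] O]
  [IsScalarTower k[X] O L] [IsIntegralClosure O k[X] L] [Module.Finite k[X] O]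
  [CommRing R] [IsDedekindDomain R] [Algebra R M] [IsFractionRing R M] [Algebra k[X] R]
  [IsScalarTower k[X] R M] [IsIntegralClosure R k[X] M]

include O in
theorem selF_midD (H : Parts) {g : ℕ} {f : k[X][X]} {θ : L} {N : ℕ} {r : k[X]} {S J : Finset k[X]}
    {s : k[X] → k[X][X]} (h2 : (2 : k) ≠ 0) (hg : 1 ≤ g) (hc : IsGen g K f θ)
    (hS : GoodS g S s) (hF : Fam g N r S s f) (hJ : J ⊆ S) {D : k[X]}
    (hD0 : D ≠ 0) (hDS : ∀ Q ∈ S, ¬ Q ∣ D)
    (hDP : ∀ P : k[X], P.Monic → Irreducible P → P ∣ D →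
      Irreducible (f.map (Ideal.Quotient.mk (Ideal.span {P}))))
    (hsel : ∀ α : L, α ≠ 0 → IsSquare (Algebra.norm K α) →
      (∀ 𝔓 : HeightOneSpectrum O, (∀ Q ∈ J, ¬ Ov Q 𝔓) → Ev 𝔓 α) →
      (∀ Q ∈ J, ∀ 𝔓 : HeightOneSpectrum O, Ov Q 𝔓 → 𝔓.valuation L θ = 1 →
        U0 𝔓 (algebraMap k[X] L Q * θ) α) → IsSquare α)
    (hθ : M⟮algebraMap L Ω θ⟯ = ⊤)
    (hQs : ∀ Q ∈ S, ∀ w : HeightOneSpectrum R, Ov Q w →
      w.valuation M (algebraMap k[X] M Q) = WithZero.exp (-1 : ℤ) ∧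
      Function.Surjective ((Ideal.Quotient.mk w.asIdeal).comp (algebraMap k[X] R)))
    (hPr : ∀ P : k[X], P.Monic → Irreducible P → (∃ w : HeightOneSpectrum R, Ov P w ∧
      w.valuation M (algebraMap k[X] M P) ≠ WithZero.exp (-1 : ℤ)) →
      Irreducible (f.map (Ideal.Quotient.mk (Ideal.span {P}))))
    {n : ℕ} (hM : Module.finrank K M = 2 ^ n) (hΩ : Module.finrank M Ω = 2 * g + 1) :
    ∀ h : M[X], aeval (algebraMap k[X] Ω (D * ∏ Q ∈ J, Q) * algebraMap L Ω θ) h ≠ 0 →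
      IsSquare (Algebra.norm M (aeval (algebraMap k[X] Ω (D * ∏ Q ∈ J, Q) * algebraMap L Ω θ) h)) →
      (∀ w : HeightOneSpectrum R, LocF (w.adicCompletion M)
        ((f.scaleRoots (D * ∏ Q ∈ J, Q)).map (algebraMap k[X] M)) h) →
      IsSquare (aeval (algebraMap k[X] Ω (D * ∏ Q ∈ J, Q) * algebraMap L Ω θ) h) := by
  haveI : IsScalarTower k[X] K Ω := by
    refine IsScalarTower.of_algebraMap_eq fun x => ?_
    rw [IsScalarTower.algebraMap_apply k[X] M Ω, IsScalarTower.algebraMap_apply k[X] K M,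
      ← IsScalarTower.algebraMap_apply K M Ω]
  haveI : Module.Finite k[X] R := IsIntegralClosure.finite k[X] K M R
  haveI : IsDedekindDomain (integralClosure k[X] Ω) := integralClosure.isDedekindDomain k[X] K Ω
  haveI : IsFractionRing (integralClosure k[X] Ω) Ω :=
    integralClosure.isFractionRing_of_finite_extension K Ω
  haveI : Module.Finite k[X] (integralClosure k[X] Ω) := IsIntegralClosure.finite k[X] K Ω _
  haveI : FiniteDimensional M Ω := FiniteDimensional.right K M Ω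
  haveI : FiniteDimensional L Ω := FiniteDimensional.right K L Ω
  haveI : Algebra.IsSeparable M Ω := Algebra.isSeparable_tower_top_of_isSeparable K M Ω
  haveI : Algebra.IsSeparable L Ω := Algebra.isSeparable_tower_top_of_isSeparable K L Ω
  exact selF_absD (K := K) O (integralClosure k[X] Ω) R H h2 hg hc hS hF hJ hD0 hDS hDP hsel hθ hQs hPr hM hΩ

end mid

end Run7.h23.Ff
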