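import Pool.Agent.Run7.h23.Ff.Cnt
import Pool.Agent.N874.TW.Final

/-!
# A positive proportion of all odd hyperelliptic Jacobians, all inert twists, over many 2-extensions which
contain a given one: the theorem

After projects TW and JM (helper874).
-/

set_option autoImplicit false
set_option linter.all false

open Polynomial IsDedekindDomain
open Pool.Agent.N352.PJ
open Pool.Agent.N874.PP (nm Ov Ev Sq1 U0)
open Pool.Agent.N874.PM (Gen SplitMod S_UR S_SPD)
open scoped Classical IntermediateField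

namespace Run7.h23.Ff

open Pool.Agent.N874.TW Pool.Agent

section one

variable {k : Type} [Field k] (K : Type) [Field K] [Algebra k[X] K] [IsFractionRing k[X] K]

theorem val_self {Q : k[X]} (hQ : Irreducible Q) (v : HeightOneSpectrum k[X]) (h : Ov Q v) :
    v.valuation K (algebraMap k[X] K Q) = WithZero.exp (-1 : ℤ) := by
  have h' : Q ∈ v.asIdeal := h
  refine (val_iff (M := K) (R := k[X]) Q v h').2 ?_
  have e : v.asIdeal = Ideal.span {Q} := by
    haveI : (Ideal.span {Q}).IsMaximal := PrincipalIdealRing.isMaximal_of_irreducible hQ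
    refine (Ideal.IsMaximal.eq_of_le this v.isPrime.ne_top ?_).symm
    rw [Ideal.span_le, Set.singleton_subset_iff]
    exact h'
  rw [e, Ideal.span_singleton_pow, Ideal.mem_span_singleton]
  rintro ⟨c, hc⟩
  change Q = Q ^ 2 * c at hc
  have h1 : Q * (1 - Q * c) = 0 := by
    linear_combination hc
  have h2 : 1 - Q * c = 0 := (mul_eq_zero.1 h1).resolve_left hQ.ne_zero
  exact hQ.not_isUnit (IsUnit.of_mul_eq_one c (by linear_combination -h2))

end one

theorem finalD {g : ℕ} (k : Type) [Field k] [Finite k] (hg : 1 ≤ g)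
    (hp : ((2 * g + 1).factorial : k) ≠ 0) (K M₀ : Type) [Field K] [Algebra k[X] K]
    [IsFractionRing k[X] K] [Field M₀] [Algebra K M₀] [Algebra k[X] M₀] [IsScalarTower k[X] K M₀]
    [FiniteDimensional K M₀] [IsGalois K M₀] (R₀ : Type) [CommRing R₀] [IsDedekindDomain R₀]
    [Algebra R₀ M₀] [IsFractionRing R₀ M₀] [Algebra k[X] R₀] [IsScalarTower k[X] R₀ M₀]
    [IsIntegralClosure R₀ k[X] M₀]
    (T : Finset k[X]) (hT' : ∀ P ∈ T, P.Monic ∧ Irreducible P) :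
    ∃ S : Finset k[X], (∀ Q ∈ S, Q.Monic ∧ Irreducible Q) ∧ Disjoint S T ∧ SplitS S M₀ R₀ ∧
    ∃ c : ℝ, 0 < c ∧ ∃ N₀ : ℕ, ∀ N ≥ N₀, {f : k[X][X] | Ht g N f}.Finite ∧
    c * ({f : k[X][X] | Ht g N f}.ncard : ℝ) ≤
      ({f : k[X][X] | Ht g N f ∧ Mini g f ∧ (f.map (algebraMap k[X] K)).Separable ∧
        Irreducible (f.map (algebraMap k[X] K)) ∧
        (∀ P ∈ T, Irreducible (f.map (Ideal.Quotient.mk (Ideal.span {P})))) ∧
        RamIrr f M₀ R₀ ∧ UniD K S f f}.ncard : ℝ) := by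
  have hfac : ∀ a : ℕ, 0 < a → a ≤ 2 * g + 1 → (a : k) ≠ 0 := by
    intro a ha ha' h0
    apply hp
    obtain ⟨d, hd⟩ : a ∣ (2 * g + 1).factorial := Nat.dvd_factorial ha ha'
    rw [hd, Nat.cast_mul, h0, zero_mul]
  have h6 : (6 : k) ≠ 0 := by
    have h2 := hfac 2 (by norm_num) (by omega)
    have h3 := hfac 3 (by norm_num) (by omega)
    have e : (6 : k) = ((2 : ℕ) : k) * ((3 : ℕ) : k) := by norm_num
    rw [e]
    exact mul_ne_zero h2 h3
  haveI : Module.Finite k[X] R₀ := IsIntegralClosure.finite k[X] K M₀ R₀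
  obtain ⟨γ, m, δ, hG, hdeg⟩ := N169.PM.gen k K M₀
  -- the prime divisors of `δ`
  obtain ⟨T₁, hT₁, hδ⟩ : ∃ T : Finset k[X], (∀ P ∈ T, P.Monic ∧ Irreducible P) ∧
      ∀ P : k[X], P.Monic → Irreducible P → P ∣ δ → P ∈ T := by
    have hf : {P : k[X] | P.Monic ∧ Irreducible P ∧ P ∣ δ}.Finite := by
      refine (N530.PP.fin_nd δ.natDegree).subset ?_
      rintro P ⟨-, -, h⟩
      exact natDegree_le_of_dvd h hG.ne
    refine ⟨hf.toFinset, fun P hP => ?_, fun P h1 h2 h3 => ?_⟩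
    · have := hf.mem_toFinset.1 hP
      exact ⟨this.1, this.2.1⟩
    · exact hf.mem_toFinset.2 ⟨h1, h2, h3⟩
  have hnov : ∀ P : k[X], P.Monic → Irreducible P → P ∉ T₁ → ∀ w : HeightOneSpectrum R₀,
      Ov P w → ¬ Ov δ w := by
    intro P h1 h2 h3 w hw hδw
    have hnd : ¬ P ∣ δ := fun h => h3 (hδ P h1 h2 h)
    obtain ⟨a, b, hab⟩ := (h2.coprime_iff_not_dvd).2 hnd
    apply w.isPrime.ne_top
    rw [Ideal.eq_top_iff_one, ← map_one (algebraMap k[X] R₀), ← hab, map_add, map_mul, map_mul]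
    exact Ideal.add_mem _ (Ideal.mul_mem_left _ _ hw) (Ideal.mul_mem_left _ _ hδw)
  have hval : ∀ P : k[X], P.Monic → Irreducible P → P ∉ T₁ → ∀ w : HeightOneSpectrum R₀,
      Ov P w → w.valuation M₀ (algebraMap k[X] M₀ P) = WithZero.exp (-1 : ℤ) := by
    intro P h1 h2 h3 w hw
    obtain ⟨v, hv⟩ := (N603.PM.UR.ur k K M₀ k[X] R₀ γ m δ hG).1 w (hnov P h1 h2 h3 w hw)
    rw [IsScalarTower.algebraMap_apply k[X] K M₀, hv]
    refine val_self K h2 v ?_
    rw [Pool.Agent.N874.PM.ov_val (L := K), ← hv, ← IsScalarTower.algebraMap_apply k[X] K M₀]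
    exact (Pool.Agent.N874.PM.ov_val P w).1 hw
  obtain ⟨S, hS, hdis, h⟩ := mainWD N874.JM.parts N615.JM.famt N874.JM.bad N738.PJ.gr N615.JM.tch k hg hp K
    (T ∪ T₁) (fun P hP => (Finset.mem_union.1 hP).elim (hT' P) (hT₁ P)) (fun Q => SplitMod Q m)
    (fun a => by
      obtain ⟨S, s, hS, hcard, hdis, hsp⟩ := N2.PM.spl k K M₀ γ m δ h6 hG hdeg (T ∪ T₁) a
      exact ⟨S, fun Q hQ => ⟨(hS Q hQ).1, (hS Q hQ).2.1⟩, hcard, hdis, hsp⟩)
  obtain ⟨c, hc, N₀, hN₀⟩ := h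
  refine ⟨S, fun Q hQ => ⟨(hS Q hQ).1, (hS Q hQ).2.1⟩,
    Finset.disjoint_of_subset_right Finset.subset_union_left hdis, ?_, c, hc, N₀, fun N hN => ?_⟩
  · intro Q hQ w hw
    have hQT : Q ∉ T₁ := fun h => Finset.disjoint_left.1 hdis hQ (Finset.mem_union_right _ h)
    refine ⟨hval Q (hS Q hQ).1 (hS Q hQ).2.1 hQT w hw, ?_⟩
    exact N874.JM.surj_top (K := K) R₀ N603.PM.UR.ur N169.PM.spd hG (hS Q hQ).2.1 (hS Q hQ).2.2 w hw
      (hnov Q (hS Q hQ).1 (hS Q hQ).2.1 hQT w hw)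
  · obtain ⟨h1, h2⟩ := hN₀ N hN
    refine ⟨h1, h2.trans ?_⟩
    have hsub : {f : k[X][X] | Ht g N f ∧ Mini g f ∧ (f.map (algebraMap k[X] K)).Separable ∧
        Irreducible (f.map (algebraMap k[X] K)) ∧
        (∀ P ∈ T ∪ T₁, Irreducible (f.map (Ideal.Quotient.mk (Ideal.span {P})))) ∧
        UniD K S f f} ⊆ {f : k[X][X] | Ht g N f ∧ Mini g f ∧
        (f.map (algebraMap k[X] K)).Separable ∧
        Irreducible (f.map (algebraMap k[X] K)) ∧
        (∀ P ∈ T, Irreducible (f.map (Ideal.Quotient.mk (Ideal.span {P})))) ∧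
        RamIrr f M₀ R₀ ∧ UniD K S f f} := by
      rintro f ⟨a1, a2, a3, a4, a5, a6⟩
      refine ⟨a1, a2, a3, a4, fun P hP => a5 P (Finset.mem_union_left _ hP), ?_, a6⟩
      rintro P hPm hPi ⟨w, hw, hne⟩
      by_contra hno
      exact hne (hval P hPm hPi (fun h => hno (a5 P (Finset.mem_union_right _ h))) w hw)
    have := Set.ncard_le_ncard hsub (h1.subset fun f hf => hf.1)
    exact_mod_cast this

end Run7.h23.Ff
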